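import Pool.Agent.H226.GB.Spec2

/-!
Project GD, task 9a, part A2: the infinite system from the equations for the coefficients.
-/

open MeasureTheory Set Filter Topology
open Pool.Agent.H226.GB

namespace Pool.Agent.H784.GD

lemma RR_pos (m : ℕ) : (0:ℝ) < (RR m : ℝ) := by
  have : 0 < RR m := by unfold RR; positivity
  exact_mod_cast this

lemma one_le_RR (m : ℕ) : (1:ℝ) ≤ (RR m : ℝ) := by
  have : 0 < RR m := by unfold RR; positivity
  exact_mod_cast this

lemma RR_mono {m n : ℕ} (h : m ≤ n) : (RR m : ℝ) ≤ (RR n : ℝ) := by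
  have : RR m ≤ RR n := by
    unfold RR
    exact Nat.pow_le_pow_right (by norm_num) (Nat.pow_le_pow_left (by omega) 3)
  exact_mod_cast this

lemma two_RR (m : ℕ) : 2 * (RR m : ℝ) ≤ (RR (m + 1) : ℝ) := by
  have : 2 * RR m ≤ RR (m + 1) := by
    unfold RR
    rw [← pow_succ']
    apply Nat.pow_le_pow_right (by norm_num)
    nlinarith [Nat.zero_le m, Nat.zero_le (m ^ 2)]
  exact_mod_cast this

lemma RR_geom (M k : ℕ) : 2 ^ k * (RR M : ℝ) ≤ (RR (k + M) : ℝ) := by
  induction k with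
  | zero => simp
  | succ k ih =>
    have h := two_RR (k + M)
    rw [show k + 1 + M = k + M + 1 by ring]
    calc (2:ℝ) ^ (k + 1) * (RR M : ℝ) = 2 * (2 ^ k * (RR M : ℝ)) := by ring
      _ ≤ 2 * (RR (k + M) : ℝ) := by linarith
      _ ≤ _ := h

lemma RR_geom4 (M k : ℕ) : 2 ^ k * (RR M : ℝ) ^ 4 ≤ (RR (k + M) : ℝ) ^ 4 := by
  have h := RR_geom M k
  have h0 := RR_pos M
  have h1 : (1:ℝ) ≤ 2 ^ k := one_le_pow₀ (by norm_num)
  calc (2:ℝ) ^ k * (RR M : ℝ) ^ 4 ≤ (2 ^ k) ^ 4 * (RR M : ℝ) ^ 4 := by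
        apply mul_le_mul_of_nonneg_right _ (by positivity)
        calc (2:ℝ) ^ k = (2 ^ k) ^ 1 := by ring
          _ ≤ (2 ^ k) ^ 4 := pow_le_pow_right₀ h1 (by norm_num)
    _ = (2 ^ k * (RR M : ℝ)) ^ 4 := by ring
    _ ≤ _ := pow_le_pow_left₀ (by positivity) h 4

lemma RR_lin (M : ℕ) : ((M:ℝ) + 1) * 2 ^ M ≤ (RR M : ℝ) := by
  have h1 : M + 1 ≤ 2 ^ M := Nat.lt_two_pow_self
  have : (M + 1) * 2 ^ M ≤ RR M := by
    unfold RR
    calc (M + 1) * 2 ^ M ≤ 2 ^ M * 2 ^ M := Nat.mul_le_mul_right _ h1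
      _ = 2 ^ (M + M) := by rw [pow_add]
      _ ≤ _ := by
        apply Nat.pow_le_pow_right (by norm_num)
        nlinarith [Nat.zero_le M, Nat.zero_le (M ^ 2), Nat.zero_le (M ^ 3)]
  exact_mod_cast this

/-- the finite identity for the energy -/
lemma energy_id (c : ℕ → ℕ → ℝ) (p g a W : ℕ → ℝ) (κ : ℝ) (q : ℕ → ℝ)
    (hq0 : q 0 = 0) (hq : ∀ m, q (m + 1) = p m * a m ^ 2) (M : ℕ) :
    ∑ m ∈ Finset.range M, a m * ((∑ n ∈ Finset.range m, c n m * a n - κ * g m) * a m - W m + q m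
        - p m * a m * a (m + 1))
      = - κ * ∑ m ∈ Finset.range M, g m * a m ^ 2
        - ∑ m ∈ Finset.range M, a m * (W m - ∑ l ∈ Finset.range M,
            (if m < l then c m l * a l ^ 2 else 0))
        - q M * a M := by
  induction M with
  | zero => simp [hq0]
  | succ M ih =>
    rw [Finset.sum_range_succ, ih, Finset.sum_range_succ (fun m => g m * a m ^ 2),
      Finset.sum_range_succ (fun m => a m * (W m - ∑ l ∈ Finset.range (M + 1),
            (if m < l then c m l * a l ^ 2 else 0)))]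
    have e1 : ∑ l ∈ Finset.range (M + 1), (if M < l then c M l * a l ^ 2 else 0) = 0 := by
      apply Finset.sum_eq_zero
      intro l hl
      rw [Finset.mem_range] at hl
      rw [if_neg (by omega)]
    have e2 : ∑ m ∈ Finset.range M, a m * (W m - ∑ l ∈ Finset.range (M + 1),
            (if m < l then c m l * a l ^ 2 else 0))
        = ∑ m ∈ Finset.range M, a m * (W m - ∑ l ∈ Finset.range M,
            (if m < l then c m l * a l ^ 2 else 0))
          - (∑ m ∈ Finset.range M, c m M * a m) * a M ^ 2 := by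
      rw [Finset.sum_mul, ← Finset.sum_sub_distrib]
      apply Finset.sum_congr rfl
      intro m hm
      rw [Finset.mem_range] at hm
      rw [Finset.sum_range_succ, if_pos hm]
      ring
    rw [e1, e2, hq M]
    ring

/-- decay of one term -/
lemma term_le {E : ℝ} {x : ℝ} (M k : ℕ) (h : |x| * (RR (k + M) : ℝ) ^ 2 ≤ E) :
    x ^ 2 ≤ E ^ 2 / (RR M : ℝ) ^ 4 * (1 / 2) ^ k := by
  have h0 := RR_pos M
  have h1 := RR_pos (k + M)
  have h2 : x ^ 2 * (RR (k + M) : ℝ) ^ 4 ≤ E ^ 2 := by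
    have := pow_le_pow_left₀ (by positivity) h 2
    calc x ^ 2 * (RR (k + M) : ℝ) ^ 4 = (|x| * (RR (k + M) : ℝ) ^ 2) ^ 2 := by
          rw [mul_pow, sq_abs]; ring
      _ ≤ _ := this
  have h3 := RR_geom4 M k
  have h4 : x ^ 2 * (2 ^ k * (RR M : ℝ) ^ 4) ≤ E ^ 2 :=
    (mul_le_mul_of_nonneg_left h3 (sq_nonneg x)).trans h2
  have e : E ^ 2 / (RR M : ℝ) ^ 4 * (1 / 2) ^ k = E ^ 2 / (2 ^ k * (RR M : ℝ) ^ 4) := by
    rw [one_div, inv_pow]
    field_simp
  rw [e, le_div_iff₀ (by positivity)]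
  exact h4

theorem A2 : ∀ (c : ℕ → ℕ → ℝ) (p g : ℕ → ℝ) (C κ T K : ℝ) (a : ℕ → ℝ → ℝ), 1 ≤ C → 0 ≤ κ →
    (∀ n l, n < l → |c n l| ≤ 2 ^ 10 * (RR n : ℝ) ^ 5) →
    (∀ n, 0 ≤ p n) → (∀ n, p n ≤ 1) → (∀ m, (RR m : ℝ) ^ 4 ≤ C * g m) →
    (∀ m, ContinuousOn (a m) (Icc 0 T)) →
    (∀ t ∈ Icc 0 T, ∀ M, ∑ m ∈ Finset.range M, g m * a m t ^ 2 ≤ K) →
    (∀ ε > 0, ∃ M₀ : ℕ, ∀ t ∈ Icc 0 T, ∀ M, M₀ ≤ M → ∀ L,
      ∑ m ∈ Finset.Ico M L, g m * a m t ^ 2 ≤ ε) →
    (∀ t ∈ Ioo 0 T, ∀ m, HasDerivAt (a m)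
      ((∑ n ∈ Finset.range m, c n m * a n t - κ * g m) * a m t
        - (∑' l, if m < l then c m l * a l t ^ 2 else 0) + pm p a m t
        - p m * a m t * a (m + 1) t) t) →
    Shell c p (fun m => κ * g m) T a (fun t => ∑' m, a m t ^ 2)
        (fun m t => ∑' l, if m < l then c m l * a l t ^ 2 else 0) ∧
      ∀ t ∈ Icc 0 T, ∀ m, g m * a m t ^ 2 ≤ K := by
  intro c p g C κ T K a hC hκ hc hp0 hp1 hg hcont hK htail hder
  have hg0 : ∀ m, 0 ≤ g m := by
    intro m
    have h1 := hg m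
    have h2 : (0:ℝ) < (RR m : ℝ) ^ 4 := by have := RR_pos m; positivity
    by_contra hneg
    push Not at hneg
    have : C * g m ≤ 0 := by nlinarith
    linarith
  have hnn : ∀ t m, 0 ≤ g m * a m t ^ 2 := fun t m => mul_nonneg (hg0 m) (sq_nonneg _)
  have hsing : ∀ t ∈ Icc 0 T, ∀ m, g m * a m t ^ 2 ≤ K := by
    intro t ht m
    refine le_trans ?_ (hK t ht (m + 1))
    exact Finset.single_le_sum (f := fun m => g m * a m t ^ 2) (fun i _ => hnn t i)
      (Finset.self_mem_range_succ m)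
  -- the bound of the coefficients
  obtain ⟨E, hE1, hE⟩ : ∃ E : ℝ, 1 ≤ E ∧ ∀ t ∈ Icc 0 T, ∀ m, |a m t| * (RR m : ℝ) ^ 2 ≤ E := by
    refine ⟨C * |K| + 1, by have := abs_nonneg K; nlinarith, ?_⟩
    intro t ht m
    have h0 := RR_pos m
    have h1 : (|a m t| * (RR m : ℝ) ^ 2) ^ 2 ≤ C * |K| := by
      calc (|a m t| * (RR m : ℝ) ^ 2) ^ 2 = (RR m : ℝ) ^ 4 * a m t ^ 2 := by
            rw [mul_pow, sq_abs]; ring
        _ ≤ (C * g m) * a m t ^ 2 := mul_le_mul_of_nonneg_right (hg m) (sq_nonneg _)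
        _ = C * (g m * a m t ^ 2) := by ring
        _ ≤ C * K := mul_le_mul_of_nonneg_left (hsing t ht m) (by linarith)
        _ ≤ C * |K| := mul_le_mul_of_nonneg_left (le_abs_self K) (by linarith)
    have h2 : 0 ≤ C * |K| := by have := abs_nonneg K; nlinarith
    have h3 : 0 ≤ |a m t| * (RR m : ℝ) ^ 2 := by positivity
    nlinarith
  have hE0 : (0:ℝ) < E := by linarith
  have hdec : ∀ t ∈ Icc 0 T, ∀ M k, a (k + M) t ^ 2 ≤ E ^ 2 / (RR M : ℝ) ^ 4 * (1 / 2) ^ k :=
    fun t ht M k => term_le M k (hE t ht (k + M))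
  have hdec0 : ∀ t ∈ Icc 0 T, ∀ k, a k t ^ 2 ≤ E ^ 2 * (1 / 2) ^ k := by
    intro t ht k
    have h := hdec t ht 0 k
    rw [Nat.add_zero] at h
    refine h.trans ?_
    apply mul_le_mul_of_nonneg_right _ (by positivity)
    apply div_le_self (by positivity)
    exact one_le_pow₀ (one_le_RR 0)
  have hgeo : Summable (fun k : ℕ => E ^ 2 * (1 / 2 : ℝ) ^ k) :=
    summable_geometric_two.mul_left _
  have hsumS : ∀ t ∈ Icc 0 T, Summable (fun m => a m t ^ 2) := fun t ht =>
    Summable.of_nonneg_of_le (fun m => sq_nonneg _) (hdec0 t ht) hgeo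
  have hsumW : ∀ t ∈ Icc 0 T, ∀ m,
      Summable (fun l => if m < l then c m l * a l t ^ 2 else 0) := by
    intro t ht m
    have hR := RR_pos m
    refine Summable.of_norm_bounded (g := fun l => (2 ^ 10 * (RR m : ℝ) ^ 5) * (a l t ^ 2))
      ((hsumS t ht).mul_left _) ?_
    intro l
    by_cases hl : m < l
    · rw [if_pos hl, Real.norm_eq_abs, abs_mul, abs_of_nonneg (sq_nonneg (a l t))]
      exact mul_le_mul_of_nonneg_right (hc m l hl) (sq_nonneg _)
    · rw [if_neg hl, norm_zero]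
      positivity
  -- the tail of W
  have hVbound : ∀ t ∈ Icc 0 T, ∀ m M,
      |(∑' l, if m < l then c m l * a l t ^ 2 else 0) - ∑ l ∈ Finset.range M,
        (if m < l then c m l * a l t ^ 2 else 0)|
        ≤ 2 ^ 11 * (RR m : ℝ) ^ 5 * (E ^ 2 / (RR M : ℝ) ^ 4) := by
    intro t ht m M
    have hR := RR_pos m
    have hRM := RR_pos M
    have h1 := (hasSum_nat_add_iff' M).mpr (hsumW t ht m).hasSum
    have h2 : HasSum (fun k : ℕ => (2 ^ 10 * (RR m : ℝ) ^ 5 * (E ^ 2 / (RR M : ℝ) ^ 4)) * (1 / 2) ^ k)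
        ((2 ^ 10 * (RR m : ℝ) ^ 5 * (E ^ 2 / (RR M : ℝ) ^ 4)) * 2) :=
      hasSum_geometric_two.mul_left _
    have h3 := h1.norm_le_of_bounded h2 (by
      intro k
      by_cases hl : m < k + M
      · rw [if_pos hl, Real.norm_eq_abs, abs_mul, abs_of_nonneg (sq_nonneg (a (k + M) t))]
        calc |c m (k + M)| * a (k + M) t ^ 2
            ≤ (2 ^ 10 * (RR m : ℝ) ^ 5) * (E ^ 2 / (RR M : ℝ) ^ 4 * (1 / 2) ^ k) :=
              mul_le_mul (hc m _ hl) (hdec t ht M k) (sq_nonneg _) (by positivity)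
          _ = _ := by ring
      · rw [if_neg hl, norm_zero]
        positivity)
    rw [Real.norm_eq_abs] at h3
    calc _ ≤ _ := h3
      _ = _ := by ring
  -- the flux
  have hflux : ∀ t ∈ Icc 0 T, ∀ M,
      |∑ m ∈ Finset.range M, a m t * ((∑' l, if m < l then c m l * a l t ^ 2 else 0)
        - ∑ l ∈ Finset.range M, (if m < l then c m l * a l t ^ 2 else 0)) + pm p a M t * a M t|
        ≤ 2 ^ 11 * E ^ 3 * (1 / 2) ^ M := by
    intro t ht M
    have hRM := RR_pos M
    have hlin : ((M:ℝ) + 1) / (RR M : ℝ) ≤ (1 / 2) ^ M := by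
      rw [one_div, inv_pow, div_le_iff₀ hRM]
      have h := RR_lin M
      have h2 : (0:ℝ) < 2 ^ M := by positivity
      rw [inv_mul_eq_div, le_div_iff₀ h2]
      exact h
    have h1 : |∑ m ∈ Finset.range M, a m t * ((∑' l, if m < l then c m l * a l t ^ 2 else 0)
        - ∑ l ∈ Finset.range M, (if m < l then c m l * a l t ^ 2 else 0))|
        ≤ M * (2 ^ 11 * E ^ 3 / (RR M : ℝ)) := by
      refine (Finset.abs_sum_le_sum_abs _ _).trans ?_
      have : ∀ m ∈ Finset.range M, |a m t * ((∑' l, if m < l then c m l * a l t ^ 2 else 0)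
        - ∑ l ∈ Finset.range M, (if m < l then c m l * a l t ^ 2 else 0))|
          ≤ 2 ^ 11 * E ^ 3 / (RR M : ℝ) := by
        intro m hm
        rw [Finset.mem_range] at hm
        have hR := RR_pos m
        have hmM := RR_mono hm.le
        rw [abs_mul]
        calc |a m t| * |_| ≤ |a m t| * (2 ^ 11 * (RR m : ℝ) ^ 5 * (E ^ 2 / (RR M : ℝ) ^ 4)) :=
              mul_le_mul_of_nonneg_left (hVbound t ht m M) (abs_nonneg _)
          _ = (|a m t| * (RR m : ℝ) ^ 2) * (2 ^ 11 * (RR m : ℝ) ^ 3 * (E ^ 2 / (RR M : ℝ) ^ 4)) := by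
              ring
          _ ≤ E * (2 ^ 11 * (RR M : ℝ) ^ 3 * (E ^ 2 / (RR M : ℝ) ^ 4)) := by
              apply mul_le_mul (hE t ht m) _ (by positivity) hE0.le
              apply mul_le_mul_of_nonneg_right _ (by positivity)
              apply mul_le_mul_of_nonneg_left _ (by norm_num)
              exact pow_le_pow_left₀ hR.le hmM 3
          _ = 2 ^ 11 * E ^ 3 / (RR M : ℝ) := by
              field_simp
      calc _ ≤ ∑ m ∈ Finset.range M, 2 ^ 11 * E ^ 3 / (RR M : ℝ) := Finset.sum_le_sum this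
        _ = _ := by rw [Finset.sum_const, Finset.card_range, nsmul_eq_mul]
    have h2 : |pm p a M t * a M t| ≤ 2 ^ 11 * E ^ 3 / (RR M : ℝ) := by
      unfold pm
      by_cases hM : M = 0
      · rw [if_pos hM, zero_mul, abs_zero]
        positivity
      · rw [if_neg hM, abs_mul, abs_mul, abs_of_nonneg (hp0 _), abs_of_nonneg (sq_nonneg _)]
        have e1 : a (M - 1) t ^ 2 ≤ E ^ 2 := by
          refine (hdec0 t ht (M - 1)).trans ?_
          apply mul_le_of_le_one_right (by positivity)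
          exact pow_le_one₀ (by norm_num) (by norm_num)
        have e2 : |a M t| ≤ E / (RR M : ℝ) := by
          rw [le_div_iff₀ hRM]
          refine le_trans ?_ (hE t ht M)
          apply mul_le_mul_of_nonneg_left _ (abs_nonneg _)
          have := one_le_RR M
          nlinarith
        calc p (M - 1) * a (M - 1) t ^ 2 * |a M t| ≤ 1 * E ^ 2 * (E / (RR M : ℝ)) := by
              apply mul_le_mul _ e2 (abs_nonneg _) (by positivity)
              exact mul_le_mul (hp1 _) e1 (sq_nonneg _) (by norm_num)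
          _ = E ^ 3 / (RR M : ℝ) := by ring
          _ ≤ _ := by
              apply div_le_div_of_nonneg_right _ hRM.le
              have : 0 < E ^ 3 := by positivity
              linarith
    calc _ ≤ _ := abs_add_le _ _
      _ ≤ M * (2 ^ 11 * E ^ 3 / (RR M : ℝ)) + 2 ^ 11 * E ^ 3 / (RR M : ℝ) := add_le_add h1 h2
      _ = 2 ^ 11 * E ^ 3 * (((M:ℝ) + 1) / (RR M : ℝ)) := by ring
      _ ≤ _ := mul_le_mul_of_nonneg_left hlin (by positivity)
  -- the sum of dissipation
  have hsumG : ∀ t ∈ Icc 0 T, Summable (fun m => g m * a m t ^ 2) := fun t ht =>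
    summable_of_sum_range_le (hnn t) (hK t ht)
  have hGtail : ∀ ε > 0, ∃ M₀ : ℕ, ∀ t ∈ Icc 0 T, ∀ M, M₀ ≤ M →
      |(∑' m, g m * a m t ^ 2) - ∑ m ∈ Finset.range M, g m * a m t ^ 2| ≤ ε := by
    intro ε hε
    obtain ⟨M₀, hM₀⟩ := htail ε hε
    refine ⟨M₀, fun t ht M hM => ?_⟩
    have hle : ∑ m ∈ Finset.range M, g m * a m t ^ 2 ≤ ∑' m, g m * a m t ^ 2 :=
      (hsumG t ht).sum_le_tsum _ (fun i _ => hnn t i)
    rw [abs_of_nonneg (by linarith)]
    have hlim := (hsumG t ht).hasSum.tendsto_sum_nat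
    have : ∑' m, g m * a m t ^ 2 ≤ ε + ∑ m ∈ Finset.range M, g m * a m t ^ 2 := by
      apply le_of_tendsto hlim
      filter_upwards [eventually_ge_atTop M] with L hL
      have h1 := Finset.sum_range_add_sum_Ico (fun m => g m * a m t ^ 2) hL
      have h2 := hM₀ t ht M hM L
      linarith
    linarith
  refine ⟨⟨hcont, ?_, fun t ht => (hsumS t ht).hasSum, fun t ht m => (hsumW t ht m).hasSum,
    hder, ?_⟩, hsing⟩
  · apply continuousOn_tsum (fun m => (hcont m).pow 2) hgeo
    intro m t ht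
    rw [Real.norm_eq_abs, abs_of_nonneg (sq_nonneg _)]
    exact hdec0 t ht m
  · intro t ht
    refine ⟨-2 * κ * ∑' m, g m * a m t ^ 2, ?_, ?_⟩
    · -- derivative
      have key : ∀ M, ∀ s ∈ Ioo 0 T, HasDerivAt (fun s => ∑ m ∈ Finset.range M, a m s ^ 2)
          (-2 * κ * ∑ m ∈ Finset.range M, g m * a m s ^ 2
            - 2 * (∑ m ∈ Finset.range M, a m s * ((∑' l, if m < l then c m l * a l s ^ 2 else 0)
              - ∑ l ∈ Finset.range M, (if m < l then c m l * a l s ^ 2 else 0))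
              + pm p a M s * a M s)) s := by
        intro M s hs
        have h1 : HasDerivAt (fun s => ∑ m ∈ Finset.range M, a m s ^ 2)
            (∑ m ∈ Finset.range M, 2 * (a m s *
              ((∑ n ∈ Finset.range m, c n m * a n s - κ * g m) * a m s
                - (∑' l, if m < l then c m l * a l s ^ 2 else 0) + pm p a m s
                - p m * a m s * a (m + 1) s))) s := by
          apply HasDerivAt.fun_sum
          intro m _
          refine ((hder s hs m).fun_pow 2).congr_deriv ?_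
          simp only [Nat.cast_ofNat]
          ring
        refine h1.congr_deriv ?_
        rw [← Finset.mul_sum, energy_id c p g (fun m => a m s)
          (fun m => ∑' l, if m < l then c m l * a l s ^ 2 else 0) κ (fun m => pm p a m s)
          (by simp [pm]) (by intro m; simp [pm]) M]
        ring
      refine hasDerivAt_of_tendstoUniformlyOn (l := atTop) isOpen_Ioo
        (f := fun M s => ∑ m ∈ Finset.range M, a m s ^ 2)
        (g := fun s => ∑' m, a m s ^ 2) (g' := fun s => -2 * κ * ∑' m, g m * a m s ^ 2)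
        (f' := fun M s => (-2 * κ * ∑ m ∈ Finset.range M, g m * a m s ^ 2
            - 2 * (∑ m ∈ Finset.range M, a m s * ((∑' l, if m < l then c m l * a l s ^ 2 else 0)
              - ∑ l ∈ Finset.range M, (if m < l then c m l * a l s ^ 2 else 0))
              + pm p a M s * a M s))) ?_ (Eventually.of_forall fun M s hs => key M s hs) ?_ ht
      · rw [Metric.tendstoUniformlyOn_iff]
        intro ε hε
        obtain ⟨M₀, hM₀⟩ := hGtail (ε / (4 * (κ + 1))) (by positivity)
        have hlim : Tendsto (fun M : ℕ => 2 * (2 ^ 11 * E ^ 3 * (1 / 2 : ℝ) ^ M)) atTop (𝓝 0) := by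
          have h := (tendsto_pow_atTop_nhds_zero_of_lt_one (r := (1 / 2 : ℝ)) (by norm_num)
            (by norm_num)).const_mul (2 * (2 ^ 11 * E ^ 3))
          rw [mul_zero] at h
          refine h.congr fun M => by ring
        filter_upwards [eventually_ge_atTop M₀, hlim.eventually_lt_const (half_pos hε)]
          with M hM hM2 s hs
        have hs' : s ∈ Icc 0 T := Ioo_subset_Icc_self hs
        have h1 := hM₀ s hs' M hM
        have h2 := hflux s hs' M
        rw [Real.dist_eq]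
        have e : ∀ G G' P : ℝ, -2 * κ * G - (-2 * κ * G' - 2 * P)
            = (-2 * κ) * (G - G') + 2 * P := fun G G' P => by ring
        rw [e]
        refine (abs_add_le _ _).trans_lt ?_
        rw [abs_mul, abs_mul, abs_mul, abs_of_nonneg hκ]
        have h3 : |(-2 : ℝ)| = 2 := by norm_num
        have h4 : |(2 : ℝ)| = 2 := by norm_num
        rw [h3, h4]
        have h5 : 2 * κ * (ε / (4 * (κ + 1))) ≤ ε / 2 := by
          rw [mul_div_assoc', div_le_iff₀ (by positivity)]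
          nlinarith
        have h6 := mul_le_mul_of_nonneg_left h1 (show 0 ≤ 2 * κ by linarith)
        linarith
      · intro s hs
        exact (hsumS s (Ioo_subset_Icc_self hs)).hasSum.tendsto_sum_nat
    · intro L
      have hle : ∑ m ∈ Finset.range L, g m * a m t ^ 2 ≤ ∑' m, g m * a m t ^ 2 :=
        (hsumG t (Ioo_subset_Icc_self ht)).sum_le_tsum _ (fun i _ => hnn t i)
      have e : ∑ m ∈ Finset.range L, κ * g m * a m t ^ 2
          = κ * ∑ m ∈ Finset.range L, g m * a m t ^ 2 := by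
        rw [Finset.mul_sum]
        exact Finset.sum_congr rfl fun m _ => by ring
      rw [e]
      nlinarith [mul_le_mul_of_nonneg_left hle hκ]

end Pool.Agent.H784.GD
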